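import Mathlib
import Pool.Agent.K9h50.NH.Et

/-!
# The ACC for minimal log discrepancies of nondegenerate hypersurfaces in toric varieties

`HypGerm d L` (`Pool.Agent.Helper43K9.NH.Defs`): a closed hypersurface `Y` of dimension `d` in the
affine toric variety `Z` of an arbitrary strictly convex rational cone of dimension `d + 1` (which
need not be simplicial), through the fixed point `P` of `Z`. The equation `F` of `Y` in the torus is
nondegenerate (in the sense of Khovanskii and Kouchnirenko) for the weights in the interior of the
cone. For example, `Z` can be a quotient of an affine space by a finite abelian group, and then `Y`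
is a hyperquotient singularity.

`Bdy g`: a boundary `B_Z = ∑ β_i D_i + ∑ c_j div (G_j)` on `Z` whose components are the invariant
divisors and the zero divisors of polynomials `G_j` such that the system `F, G_1, ..., G_s` is
nondegenerate, and `K_Z + Y + B_Z` is `ℝ`-Cartier. `IsRes b e'`: the boundary `B'` of `Y` is given by
adjunction, `K_Y + B' = (K_Z + Y + B_Z)|_Y`. `KltTy g`: `Y` is of klt type, for some boundary as
above the pair `(Y, B')` is klt at `P`.

`etHypMlds d Γ`: the minimal log discrepancies `m ≥ 0` of all pairs `(X ∋ x, B)`, where `X` is a
normal variety and `x` a closed point, which are étale locally isomorphic to such a germ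
`(Y ∋ P, B')`, where the coefficients of `B_Z` lie in `Γ` (`CommonAt`).

Theorem: for every `d` and every DCC set `Γ` this set satisfies the ascending chain condition.

The proof: the log discrepancies of `(Y, B')` are bounded from below by the concave function
`ψ (w) - F (w) - ∑ c_j G_j (w)` of the weights `w`, with equality for suitable prime divisors for
all weights `w` on the tropical hypersurface of `F`. For arbitrary weights in the interior of the
cone there is a combinatorial inversion of adjunction: a walk in the directions of the edges of the
cone which leads to the tropical hypersurface and does not increase the function. So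
`mld_P (Y, B')` is the minimum of the function over all lattice points in the interior of the cone.
-/

set_option autoImplicit false

namespace Pool.Agent.Results.MP_df5e61_ag.NondegHypersurfaces

open Pool.Agent.H436R3.KT Pool.Agent.W497.Mld Pool.Agent.Helper43K9.NH Pool.Agent.K9h50.NH

/-- The class contains the nondegenerate hypersurfaces themselves, with the fixed point. -/
theorem hyp_mem (d : ℕ) (Γ : Set ℝ) : hypMlds d Γ ⊆ etHypMlds d Γ := by
  rintro m ⟨h0, L, _, _, g, b, B, e, hn, hk, hres, hβ, hc, hm⟩
  exact ⟨h0, L, inferInstance, inferInstance, g.X, B, g.P, e, hn, ⟨L, inferInstance,
    inferInstance, g, b, B, e, hk, hres, hβ, hc, common_at_refl e⟩, hm⟩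

/-- **The ACC for the minimal log discrepancies at all closed points** which are étale locally
nondegenerate hypersurfaces of klt type and of dimension `d` in toric varieties. -/
theorem result (d : ℕ) (Γ : Set ℝ) (hΓ : Pool.Agent.TH165.ACC.IsDCC Γ) :
    Pool.Agent.TH165.ACC.IsACC (etHypMlds d Γ) :=
  et_hyp_acc d hΓ

end Pool.Agent.Results.MP_df5e61_ag.NondegHypersurfaces
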